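import Pool.Agent.P.MP_e86632_nt.Cl.Inf

/-! A checker for upper bounds on `G`: a finite tree of words with a slope at each leaf. -/

namespace Pool.Agent.P.MP_e86632_nt.Cl

open Lex Finset

def isP (n : ℕ) : Bool := decide (2 ≤ n) && (List.range n).all fun d => decide (d < 2) || n % d != 0

lemma isP_iff (n : ℕ) : isP n = true ↔ n.Prime := by
  rw [Nat.prime_def_lt']
  simp only [isP, Bool.and_eq_true, decide_eq_true_eq, List.all_eq_true, List.mem_range,
    Bool.or_eq_true, bne_iff_ne, ne_eq, ← Nat.dvd_iff_mod_eq_zero]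
  refine and_congr_right fun _ => ⟨fun h d h1 h2 => (h d h2).resolve_left (by omega),
    fun h d h2 => ?_⟩
  by_cases h1 : d < 2
  exacts [Or.inl h1, Or.inr (h d (by omega) h2)]

def nx : ℕ → ℕ → ℕ
  | 0, c => c
  | f + 1, c => if isP c then c else nx f (c + 1)

lemma nx_eq {b : ℕ} (hb : b.Prime) (f : ℕ) : ∀ c, c ≤ b → b ≤ c + f →
    (∀ i, c ≤ i → i < b → ¬ i.Prime) → nx f c = b := by
  induction f with
  | zero => intro c h1 h2 _; simp only [nx]; omega
  | succ f ih =>
    intro c h1 h2 h3
    simp only [nx, isP_iff]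
    split_ifs with h
    · by_contra hc
      exact h3 c le_rfl (by omega) h
    · have : c ≠ b := fun e => h (e ▸ hb)
      exact ih (c + 1) (by omega) (by omega) fun i hi => h3 i (by omega)

def np (a : ℕ) : ℕ := nx a (a + 1)

lemma np_pr (k : ℕ) : np (pr k) = pr (k + 1) := by
  refine nx_eq (pr_prime _) _ _ (pr_lt (Nat.lt_succ_self k)) (by have := pr_bertrand k; omega)
    fun i h1 h2 hp => ?_
  obtain ⟨j, rfl⟩ := pr_surj hp
  rcases le_or_gt j k with h | h
  · have := pr_le h; omega
  · have := pr_le (show k + 1 ≤ j from h); omega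

/-- integer state for the slope `a / b`, all weights multiplied by `b` -/
structure ZS where
  p : ℕ
  MS : ℕ
  MT : ℕ
  Q : ℕ
  WS : ℤ
  WT : ℤ
  N : ℤ
  u : ℕ → ℤ
  v : ℕ → ℤ

def ZS.step (s : ZS) (c : Bool) (m : ℤ) : ZS :=
  if c then ⟨np s.p, s.MS * s.p, s.MT, s.Q * s.p, (s.p - 1) * s.WS, s.WT - m, s.N * s.p + s.WS,
    s.u, fun n => if n ≡ s.p [MOD s.MT] then s.v n - m else s.v n⟩
  else ⟨np s.p, s.MS, s.MT * s.p, s.Q * s.p, s.WS - m, (s.p - 1) * s.WT, s.N * s.p + s.WT,
    fun n => if n ≡ s.p [MOD s.MS] then s.u n - m else s.u n, s.v⟩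

/-- the word is listed from the last letter to the first -/
def run (a b : ℕ) : List Bool → ZS
  | [] => ⟨2, 1, 1, 1, a, b, 0, fun _ => a, fun _ => b⟩
  | c :: π => (fun s : ZS => s.step c (min (s.u s.p) (s.v s.p))) (run a b π)

noncomputable def rs (l : ℝ) : List Bool → St
  | [] => st0 l 1
  | c :: π => if c then sJ (rs l π) π.length else sI (rs l π) π.length

noncomputable def rA (l : ℝ) : List Bool → ℝ
  | [] => 0
  | c :: π => rA l π + (if c then (rs l π).WS else (rs l π).WT) / Pk (π.length + 1)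

lemma ok_rs {l : ℝ} (hl : 0 ≤ l) (π : List Bool) : Ok π.length (rs l π) := by
  induction π with
  | nil => exact ok_st0 hl zero_le_one
  | cons c π ih =>
    simp only [rs, List.length_cons]
    split_ifs
    · exact bw2.okJ _ _ _ ih (ih.mw0 le_rfl) le_rfl
    · exact bw2.okI _ _ _ ih (ih.mw0 le_rfl) le_rfl

structure Rl (b : ℝ) (k : ℕ) (s : ZS) (σ : St) (X : ℝ) : Prop where
  p : s.p = pr k
  MS : s.MS = σ.MS
  MT : s.MT = σ.MT
  Q : (s.Q : ℝ) = Pk k
  WS : (s.WS : ℝ) = b * σ.WS
  WT : (s.WT : ℝ) = b * σ.WT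
  N : (s.N : ℝ) = b * Pk k * X
  u : ∀ n, (s.u n : ℝ) = b * σ.u n
  v : ∀ n, (s.v n : ℝ) = b * σ.v n

lemma rl_run (a : ℕ) {b : ℕ} (hb : 0 < b) (π : List Bool) :
    Rl b π.length (run a b π) (rs (a / b) π) (rA (a / b) π) := by
  have hb' : (0 : ℝ) < b := by exact_mod_cast hb
  induction π with
  | nil =>
    have e : (a : ℝ) = b * (a / b) := by field_simp
    exact ⟨pr_zero.symm, rfl, rfl, by simp [run, Pk_zero], by simpa [run, rs] using e,
      by simp [run, rs], by simp [run, rA], fun _ => by simpa [run, rs, st0] using e,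
      fun _ => by simp [run, rs, st0]⟩
  | cons c π ih =>
    have hm : ((min ((run a b π).u (run a b π).p) ((run a b π).v (run a b π).p) : ℤ) : ℝ)
        = b * mw (rs (a / b) π) π.length := by
      push_cast
      rw [ih.u, ih.v, ih.p, mw, St.m, mul_min_of_nonneg _ _ hb'.le]
    have hq : ((run a b π).p : ℝ) = q π.length := by rw [ih.p]; rfl
    have h1 := (Pk_pos π.length).ne'
    have h2 := (q_pos π.length).ne'
    simp only [run, rs, rA, List.length_cons]
    generalize min ((run a b π).u (run a b π).p) ((run a b π).v (run a b π).p) = m at hm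
    cases c
    · simp only [ZS.step, if_false, Bool.false_eq_true]
      refine ⟨by rw [ih.p, np_pr], ih.MS, by rw [ih.MT, ih.p]; rfl, ?_, ?_, ?_, ?_, fun n => ?_,
        ih.v⟩
      · push_cast; rw [ih.Q, hq, Pk_succ]
      · push_cast; rw [ih.WS, hm, sI_WS]; ring
      · push_cast; rw [ih.WT, hq, sI_WT]; ring
      · push_cast; rw [ih.N, ih.WT, hq, Pk_succ]; field_simp
      · simp only [sI, St.stepI, ih.MS, ih.p]
        by_cases hn : n ≡ pr π.length [MOD (rs (a / b) π).MS]
        · rw [if_pos hn, if_pos hn]; push_cast; rw [ih.u, hm]; ring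
        · rw [if_neg hn, if_neg hn]; exact ih.u n
    · simp only [ZS.step, if_true]
      refine ⟨by rw [ih.p, np_pr], by rw [ih.MS, ih.p]; rfl, ih.MT, ?_, ?_, ?_, ?_, ih.u,
        fun n => ?_⟩
      · push_cast; rw [ih.Q, hq, Pk_succ]
      · push_cast; rw [ih.WS, hq, sJ_WS]; ring
      · push_cast; rw [ih.WT, hm, sJ_WT]; ring
      · push_cast; rw [ih.N, ih.WS, hq, Pk_succ]; field_simp
      · simp only [sJ, St.stepJ, ih.MT, ih.p]
        by_cases hn : n ≡ pr π.length [MOD (rs (a / b) π).MT]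
        · rw [if_pos hn, if_pos hn]; push_cast; rw [ih.v, hm]; ring
        · rw [if_neg hn, if_neg hn]; exact ih.v n

inductive Tr : Type
  | leaf : ℕ → ℕ → Tr
  | node : Tr → Tr → Tr

def pass (D : ℕ) (x y : ℤ) (a b : ℕ) (s : ZS) : Bool :=
  decide ((s.N + max s.WS s.WT) * D - a * s.Q * x ≤ y * b * s.Q)

def chk (D : ℕ) (x y x' y' : ℤ) : Tr → List Bool → Bool
  | .leaf a b, π => decide (0 < b) && (fun s => pass D x y a b s && pass D x' y' a b s) (run a b π)
  | .node t t', π => chk D x y x' y' t (false :: π) && chk D x y x' y' t' (true :: π)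

lemma pass_sound {D : ℕ} (hD : 0 < D) {x y : ℤ} {a b : ℕ} (hb : 0 < b) {π : List Bool}
    (h : pass D x y a b (run a b π) = true) (e : Wd) :
    rA (a / b) π + Vw e π.length (rs (a / b) π) / Pk π.length - a / b * (x / D) ≤ y / D := by
  have hb' : (0 : ℝ) < b := by exact_mod_cast hb
  have hD' : (0 : ℝ) < D := by exact_mod_cast hD
  have hP := Pk_pos π.length
  have R := rl_run a hb π
  have h1 : ((run a b π).N + max ((run a b π).WS : ℝ) ((run a b π).WT : ℝ)) * D
      - a * (run a b π).Q * x ≤ y * b * (run a b π).Q := by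
    exact_mod_cast of_decide_eq_true h
  rw [R.N, R.WS, R.WT, R.Q, ← mul_max_of_nonneg _ _ hb'.le] at h1
  have h2 := div_le_div_of_nonneg_right
    (Vw_le_max (ok_rs (l := a / b) (by positivity) π) e) hP.le
  have h3 : rA (a / b) π + max (rs (a / b) π).WS (rs (a / b) π).WT / Pk π.length - a / b * (x / D)
      = ((b * Pk π.length * rA (a / b) π + b * max (rs (a / b) π).WS (rs (a / b) π).WT) * D
        - a * Pk π.length * x) / (b * Pk π.length * D) := by
    field_simp
  have h4 : (y : ℝ) / D = y * b * Pk π.length / (b * Pk π.length * D) := by field_simp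
  have h5 := div_le_div_of_nonneg_right h1 (show 0 ≤ b * Pk π.length * D by positivity)
  linarith

lemma chk_sound {D : ℕ} (hD : 0 < D) {x y x' y' : ℤ} (t : Tr) : ∀ π, chk D x y x' y' t π = true →
    ∀ e, ∃ l : ℝ, 0 ≤ l ∧
      rA l π + Vw e π.length (rs l π) / Pk π.length - l * (x / D) ≤ y / D ∧
      rA l π + Vw e π.length (rs l π) / Pk π.length - l * (x' / D) ≤ y' / D := by
  induction t with
  | leaf a b =>
    intro π h e
    simp only [chk, Bool.and_eq_true, decide_eq_true_eq] at h
    exact ⟨a / b, by positivity, pass_sound hD h.1 h.2.1 e, pass_sound hD h.1 h.2.2 e⟩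
  | node t t' ih ih' =>
    intro π h e
    simp only [chk, Bool.and_eq_true] at h
    have h1 := (Pk_pos π.length).ne'
    have h2 := (q_pos π.length).ne'
    have kI : ∀ l w, rA l (false :: π) + Vw w (false :: π).length (rs l (false :: π))
        / Pk (false :: π).length = rA l π + Vw (.I w) π.length (rs l π) / Pk π.length := by
      intro l w
      simp only [rA, rs, List.length_cons, if_false, Bool.false_eq_true, Vw, Pk_succ]
      field_simp
      ring
    have kJ : ∀ l w, rA l (true :: π) + Vw w (true :: π).length (rs l (true :: π))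
        / Pk (true :: π).length = rA l π + Vw (.J w) π.length (rs l π) / Pk π.length := by
      intro l w
      simp only [rA, rs, List.length_cons, if_true, Vw, Pk_succ]
      field_simp
      ring
    have eb : ∀ σ, Vw (.I .bot) π.length σ = Vw .bot π.length σ := fun σ => by
      simp only [Vw, sI_WT]; field_simp; ring
    have et : ∀ σ, Vw (.J .top) π.length σ = Vw .top π.length σ := fun σ => by
      simp only [Vw, sJ_WS]; field_simp; ring
    cases e with
    | bot => simpa only [kI, eb] using ih _ h.1 .bot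
    | top => simpa only [kJ, et] using ih' _ h.2 .top
    | I w => simpa only [kI] using ih _ h.1 w
    | J w => simpa only [kJ] using ih' _ h.2 w

theorem G_le_chk {D : ℕ} (hD : 0 < D) {x y x' y' : ℤ} (t : Tr) (h : chk D x y x' y' t [] = true)
    {z c s : ℝ} (h1 : x / D ≤ z) (h2 : z ≤ x' / D) (hz : z ≤ 1) (e1 : y / D = c - s * (x / D))
    (e2 : y' / D = c - s * (x' / D)) : G z ≤ c - s * z :=
  G_le_of hz fun w v hv => by
    obtain ⟨l, hl, a1, a2⟩ := chk_sound hD t [] h w
    simp only [rA, rs, List.length_nil, Pk_zero, div_one, zero_add] at a1 a2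
    have h3 := hv l hl
    rcases le_total l s with h4 | h4
    · nlinarith [mul_nonneg (sub_nonneg.2 h4) (sub_nonneg.2 h2)]
    · nlinarith [mul_nonneg (sub_nonneg.2 h4) (sub_nonneg.2 h1)]

end Pool.Agent.P.MP_e86632_nt.Cl
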