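import Mathlib

/-! The closed series attached to a set `J` of primes. -/

namespace Pool.Agent.P.MP_e86632_nt.Cl

open Finset Classical

/-- product of the primes `q < p` that lie in `K` -/
noncomputable def M (K : Set ℕ) (p : ℕ) : ℕ := ∏ q ∈ range p with q.Prime ∧ q ∈ K, q

/-- the weights, by recursion on `p` -/
noncomputable def m (J : Set ℕ) (l : ℝ) (p : ℕ) : ℝ :=
  min (l - ∑ i : Fin p, if i.1.Prime ∧ i.1 ∉ J ∧ i.1 ≡ p [MOD M J i] then m J l i else 0)
    (1 - ∑ j : Fin p, if j.1.Prime ∧ j.1 ∈ J ∧ j.1 ≡ p [MOD M (J)ᶜ j] then m J l j else 0)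
termination_by p
decreasing_by all_goals exact Fin.is_lt _

/-- the total weight left on the side `K` before the prime `p` -/
noncomputable def W (J : Set ℕ) (l : ℝ) (K : Set ℕ) (c : ℝ) (p : ℕ) : ℝ :=
  (M K p).totient * (c - ∑ i ∈ range p with i.Prime ∧ i ∉ K, m J l i / (M K i).totient)

/-- the term of the prime `p` -/
noncomputable def term (J : Set ℕ) (l : ℝ) (p : Nat.Primes) : ℝ :=
  (if p.1 ∈ J then W J l J l p else W J l (J)ᶜ 1 p) / primorial p

/-- the series -/
noncomputable def V (J : Set ℕ) (l : ℝ) : ℝ := ∑' p : Nat.Primes, term J l p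

end Pool.Agent.P.MP_e86632_nt.Cl
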