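import Pool.Agent.P.MP_e86632_nt.Lex.Trunc

/-! Infinite words: states, partial sums, the limit value, attainment of the supremum. -/

namespace Pool.Agent.P.MP_e86632_nt.Cl

open Lex Finset Filter Topology

/-- states along an infinite word -/
noncomputable def stt (ω : ℕ → Bool) (l : ℝ) : ℕ → St
  | 0 => st0 l 1
  | k + 1 => if ω k then sJ (stt ω l k) k else sI (stt ω l k) k

noncomputable def Pk (k : ℕ) : ℝ := ∏ j ∈ range k, q j
noncomputable def Fk (k : ℕ) : ℝ := ∏ j ∈ range k, (q j - 1)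

noncomputable def tm (ω : ℕ → Bool) (l : ℝ) (k : ℕ) : ℝ :=
  (if ω k then (stt ω l k).WS else (stt ω l k).WT) / Pk (k + 1)

noncomputable def A (ω : ℕ → Bool) (l : ℝ) (n : ℕ) : ℝ := ∑ k ∈ range n, tm ω l k

noncomputable def Vi (ω : ℕ → Bool) (l : ℝ) : ℝ := ∑' k, tm ω l k

/-- the word with letters `ω k, ..., ω (k + n - 1)`, followed by `e` -/
def wd (ω : ℕ → Bool) : ℕ → ℕ → Wd → Wd
  | _, 0, e => e
  | k, n + 1, e => if ω k then .J (wd ω (k + 1) n e) else .I (wd ω (k + 1) n e)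

lemma Pk_pos (k : ℕ) : 0 < Pk k := prod_pos fun _ _ => q_pos _
lemma Pk_succ (k : ℕ) : Pk (k + 1) = Pk k * q k := prod_range_succ _ _
lemma Fk_succ (k : ℕ) : Fk (k + 1) = Fk k * (q k - 1) := prod_range_succ _ _
lemma Pk_zero : Pk 0 = 1 := prod_range_zero _
lemma Fk_zero : Fk 0 = 1 := prod_range_zero _
lemma Fk_ge (k : ℕ) : 1 ≤ Fk k := by
  induction k with
  | zero => exact Fk_zero.ge
  | succ k ih => rw [Fk_succ]; nlinarith [q_ge_two k]

lemma Vw_wd (ω : ℕ → Bool) (l : ℝ) (n : ℕ) : ∀ k e,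
    A ω l k + Vw (wd ω k n e) k (stt ω l k) / Pk k
      = A ω l (k + n) + Vw e (k + n) (stt ω l (k + n)) / Pk (k + n) := by
  induction n with
  | zero => intro k e; rfl
  | succ n ih =>
    intro k e
    have h := ih (k + 1) e
    rw [show k + 1 + n = k + (n + 1) by ring] at h
    rw [← h]
    have h1 := (Pk_pos k).ne'
    have h2 := (q_pos k).ne'
    simp only [A, sum_range_succ, tm, wd, stt]
    cases ω k <;> simp only [Vw, if_true, if_false, Bool.false_eq_true, Pk_succ] <;> field_simp <;>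
      ring

lemma Vw_wd0 (ω : ℕ → Bool) (l : ℝ) (n : ℕ) (e : Wd) :
    Vw (wd ω 0 n e) 0 (st0 l 1) = A ω l n + Vw e n (stt ω l n) / Pk n := by
  have h := Vw_wd ω l n 0 e
  simpa [A, Pk_zero, stt] using h

lemma ok_stt (ω : ℕ → Bool) {l : ℝ} (hl : 0 ≤ l) (k : ℕ) : Ok k (stt ω l k) := by
  induction k with
  | zero => exact ok_st0 hl zero_le_one
  | succ k ih =>
    simp only [stt]
    split_ifs
    · exact bw2.okJ k _ _ ih (ih.mw0 le_rfl) le_rfl
    · exact bw2.okI k _ _ ih (ih.mw0 le_rfl) le_rfl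

lemma stt_le (ω : ℕ → Bool) {l : ℝ} (hl : 0 ≤ l) (k : ℕ) :
    (stt ω l k).WS ≤ l * Fk k ∧ (stt ω l k).WT ≤ Fk k := by
  induction k with
  | zero => simp [stt, Fk_zero]
  | succ k ih =>
    have h := ok_stt ω hl k
    have h0 := h.mw0 le_rfl
    have h1 := h.WS0
    have h2 := h.WT0
    have h3 := q_ge_two k
    have h4 := Fk_ge k
    simp only [stt, Fk_succ]
    split_ifs
    · simp only [sJ_WS, sJ_WT]
      constructor <;> nlinarith [ih.1, ih.2]
    · simp only [sI_WS, sI_WT]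
      constructor <;> nlinarith [ih.1, ih.2, mul_nonneg hl (zero_le_one.trans h4)]

lemma stt_le' (ω : ℕ → Bool) {l : ℝ} (hl : 0 ≤ l) (k : ℕ) : ∃ a b : ℝ, 1 ≤ a ∧ 1 ≤ b ∧
    a * b = Pk k ∧ (stt ω l k).WS ≤ l * b ∧ (stt ω l k).WT ≤ a ∧
    ∀ l', 0 ≤ l' → (stt ω l' k).WS ≤ l' * b ∧ (stt ω l' k).WT ≤ a := by
  suffices H : ∃ a b : ℝ, 1 ≤ a ∧ 1 ≤ b ∧ a * b = Pk k ∧
      ∀ l', 0 ≤ l' → (stt ω l' k).WS ≤ l' * b ∧ (stt ω l' k).WT ≤ a by
    obtain ⟨a, b, h1, h2, h3, h4⟩ := H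
    exact ⟨a, b, h1, h2, h3, (h4 l hl).1, (h4 l hl).2, h4⟩
  induction k with
  | zero => exact ⟨1, 1, le_rfl, le_rfl, by simp [Pk_zero], fun l' _ => by simp [stt]⟩
  | succ k ih =>
    obtain ⟨a, b, h1, h2, h3, h4⟩ := ih
    have hq := q_ge_two k
    cases hω : ω k
    · refine ⟨a * q k, b, by nlinarith, h2, by rw [Pk_succ, ← h3]; ring, fun l' hl' => ?_⟩
      have h := ok_stt ω hl' k
      have h0 := h.mw0 le_rfl
      simp only [stt, hω, if_false, Bool.false_eq_true, sI_WS, sI_WT]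
      constructor <;> nlinarith [(h4 l' hl').1, (h4 l' hl').2, h.WT0]
    · refine ⟨a, b * q k, h1, by nlinarith, by rw [Pk_succ, ← h3]; ring, fun l' hl' => ?_⟩
      have h := ok_stt ω hl' k
      have h0 := h.mw0 le_rfl
      simp only [stt, hω, if_true, sJ_WS, sJ_WT]
      constructor <;> nlinarith [(h4 l' hl').1, (h4 l' hl').2, h.WS0]

/-- the enumeration of the primes -/
noncomputable def eqP : ℕ ≃ Nat.Primes :=
  Equiv.ofBijective (fun k => ⟨pr k, pr_prime k⟩)
    ⟨fun _ _ h => pr_inj (congrArg Subtype.val h), fun p => by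
      obtain ⟨j, hj⟩ := pr_surj p.2
      exact ⟨j, Subtype.ext hj⟩⟩

lemma eqP_val (k : ℕ) : (eqP k).1 = pr k := rfl

noncomputable def Ek (k : ℕ) : ℝ := Fk k / Pk k

lemma Ek_pos (k : ℕ) : 0 < Ek k := div_pos (one_pos.trans_le (Fk_ge k)) (Pk_pos k)

lemma Ek_succ (k : ℕ) : Ek (k + 1) = Ek k * (1 - 1 / q k) := by
  have h1 := (Pk_pos k).ne'
  have h2 := (q_pos k).ne'
  simp only [Ek, Fk_succ, Pk_succ]
  field_simp

lemma Ek_tendsto : Tendsto Ek atTop (𝓝 0) := by
  have h1 : ¬ Summable fun k : ℕ => 1 / q k := fun h =>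
    Nat.Primes.not_summable_one_div (eqP.summable_iff.1 h)
  rw [not_summable_iff_tendsto_nat_atTop_of_nonneg fun k => (one_div_pos.2 (q_pos k)).le] at h1
  have h2 : ∀ n, Ek n ≤ Real.exp (-∑ k ∈ range n, 1 / q k) := by
    intro n
    induction n with
    | zero => simp [Ek, Fk_zero, Pk_zero]
    | succ n ih =>
      rw [Ek_succ, sum_range_succ, neg_add, Real.exp_add]
      have h3 : 0 ≤ 1 - 1 / q n := by
        have := one_div_le_one_div_of_le one_pos (show 1 ≤ q n by linarith [q_ge_two n])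
        linarith
      exact mul_le_mul ih (by linarith [Real.add_one_le_exp (-(1 / q n))]) h3 (Real.exp_pos _).le
  exact squeeze_zero (fun n => (Ek_pos n).le) h2
    (Real.tendsto_exp_atBot.comp (tendsto_neg_atTop_atBot.comp h1))

lemma Vw_le_max {k : ℕ} {σ : St} (h : Ok k σ) (w : Wd) : Vw w k σ ≤ max σ.WS σ.WT := by
  have h1 := bw3.up w k σ h
  have h2 := mul_le_mul_of_nonneg_right (le_max_left σ.WS σ.WT) (bw1.s0 w k)
  have h3 := mul_le_mul_of_nonneg_right (le_max_right σ.WS σ.WT) (bw1.t0 w k)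
  have h4 := mul_le_mul_of_nonneg_left (bw1.st w k) (h.WS0.trans (le_max_left σ.WS σ.WT))
  linarith

lemma Vw_nonneg {k : ℕ} {σ : St} (h : Ok k σ) (w : Wd) : 0 ≤ Vw w k σ :=
  (mul_nonneg h.WS0 (bw1.s0 w k)).trans (loS w k σ h)

section
variable (ω : ℕ → Bool) {l : ℝ} (hl : 0 ≤ l)
include hl

lemma tm_nonneg (k : ℕ) : 0 ≤ tm ω l k := by
  refine div_nonneg ?_ (Pk_pos _).le
  split_ifs
  exacts [(ok_stt ω hl k).WS0, (ok_stt ω hl k).WT0]

lemma A_add_le (n N : ℕ) :
    A ω l (n + N) ≤ A ω l n + max (stt ω l n).WS (stt ω l n).WT / Pk n := by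
  have h1 := Vw_wd ω l N n .bot
  have h2 := div_nonneg (Vw_nonneg (ok_stt ω hl (n + N)) .bot) (Pk_pos (n + N)).le
  have h3 := div_le_div_of_nonneg_right (Vw_le_max (ok_stt ω hl n) (wd ω n N .bot)) (Pk_pos n).le
  linarith

lemma tm_summable : Summable (tm ω l) :=
  summable_of_sum_range_le (tm_nonneg ω hl) fun n => by
    have h := A_add_le ω hl 0 n
    rw [zero_add] at h
    exact h

lemma A_tendsto : Tendsto (A ω l) atTop (𝓝 (Vi ω l)) :=
  (tm_summable ω hl).hasSum.tendsto_sum_nat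

lemma A_le (n : ℕ) : A ω l n ≤ Vi ω l :=
  (tm_summable ω hl).sum_le_tsum _ fun k _ => tm_nonneg ω hl k

lemma Vi_le (n : ℕ) : Vi ω l ≤ A ω l n + max (stt ω l n).WS (stt ω l n).WT / Pk n := by
  refine le_of_tendsto' ((A_tendsto ω hl).comp (tendsto_add_atTop_nat n)) fun N => ?_
  rw [Function.comp_apply, add_comm N n]
  exact A_add_le ω hl n N

lemma Vi_le_add (n : ℕ) :
    Vi ω l ≤ A ω l n + (stt ω l n).WS / Pk n + (stt ω l n).WT / Pk n := by
  have h := ok_stt ω hl n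
  have h1 := div_le_div_of_nonneg_right
    (max_le_add_of_nonneg h.WS0 h.WT0) (Pk_pos n).le
  rw [add_div] at h1
  linarith [Vi_le ω hl n]

lemma WS_div_le (n : ℕ) : (stt ω l n).WS / Pk n ≤ l * Ek n := by
  rw [Ek, ← mul_div_assoc]
  exact div_le_div_of_nonneg_right (stt_le ω hl n).1 (Pk_pos n).le

lemma WT_div_le (n : ℕ) : (stt ω l n).WT / Pk n ≤ Ek n :=
  div_le_div_of_nonneg_right (stt_le ω hl n).2 (Pk_pos n).le

end

lemma stt_congr {ω ω' : ℕ → Bool} (l : ℝ) {n : ℕ} (h : ∀ k < n, ω k = ω' k) :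
    ∀ k ≤ n, stt ω l k = stt ω' l k := by
  intro k
  induction k with
  | zero => intro _; rfl
  | succ k ih => intro hk; simp only [stt, h k hk, ih (by omega)]

lemma A_congr {ω ω' : ℕ → Bool} (l : ℝ) {n : ℕ} (h : ∀ k < n, ω k = ω' k) :
    A ω l n = A ω' l n :=
  sum_congr rfl fun k hk => by
    simp only [tm, h k (mem_range.1 hk), stt_congr l h k (mem_range.1 hk).le]

/-- letters of a finite word, continued by its terminal letter -/
def lt : Wd → ℕ → Bool
  | .bot, _ => false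
  | .top, _ => true
  | .I _, 0 => false
  | .J _, 0 => true
  | .I w, i + 1 => lt w i
  | .J w, i + 1 => lt w i

def fin : Wd → Wd
  | .bot => .bot
  | .top => .top
  | .I w => fin w
  | .J w => fin w

lemma wd_bot (ω : ℕ → Bool) (n : ℕ) : ∀ k σ, (∀ i, ω (k + i) = false) →
    Vw (wd ω k n .bot) k σ = σ.WT := by
  induction n with
  | zero => intro k σ _; rfl
  | succ n ih =>
    intro k σ h
    have h0 : ω k = false := h 0
    have := (q_pos k).ne'
    simp only [wd, h0, if_false, Bool.false_eq_true, Vw]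
    rw [ih (k + 1) _ fun i => by rw [add_assoc]; exact h _, sI_WT]
    field_simp
    ring

lemma wd_top (ω : ℕ → Bool) (n : ℕ) : ∀ k σ, (∀ i, ω (k + i) = true) →
    Vw (wd ω k n .top) k σ = σ.WS := by
  induction n with
  | zero => intro k σ _; rfl
  | succ n ih =>
    intro k σ h
    have h0 : ω k = true := h 0
    have := (q_pos k).ne'
    simp only [wd, h0, if_true, Vw]
    rw [ih (k + 1) _ fun i => by rw [add_assoc]; exact h _, sJ_WS]
    field_simp
    ring

lemma wd_lt (ω : ℕ → Bool) (w : Wd) : ∀ k n σ, (∀ i, ω (k + i) = lt w i) → w.len ≤ n →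
    Vw (wd ω k n (fin w)) k σ = Vw w k σ := by
  induction w with
  | bot => intro k n σ h _; exact wd_bot ω n k σ h
  | top => intro k n σ h _; exact wd_top ω n k σ h
  | I w ih =>
    intro k n σ h hn
    obtain ⟨n, rfl⟩ : ∃ n', n = n' + 1 := ⟨n - 1, by simp only [Wd.len] at hn; omega⟩
    have h0 : ω k = false := h 0
    simp only [wd, h0, if_false, Bool.false_eq_true, Vw, fin]
    rw [ih (k + 1) n _ (fun i => by rw [add_assoc, add_comm 1 i]; exact h _)
      (by simp only [Wd.len] at hn; omega)]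
  | J w ih =>
    intro k n σ h hn
    obtain ⟨n, rfl⟩ : ∃ n', n = n' + 1 := ⟨n - 1, by simp only [Wd.len] at hn; omega⟩
    have h0 : ω k = true := h 0
    simp only [wd, h0, if_true, Vw, fin]
    rw [ih (k + 1) n _ (fun i => by rw [add_assoc, add_comm 1 i]; exact h _)
      (by simp only [Wd.len] at hn; omega)]

/-- a finite word is an eventually constant infinite word -/
lemma Vi_lt (w : Wd) {l : ℝ} (hl : 0 ≤ l) : Vi (lt w) l = Vw w 0 (st0 l 1) := by
  have h1 : Tendsto (fun n => Vw (fin w) n (stt (lt w) l n) / Pk n) atTop (𝓝 0) := by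
    have h2 : Tendsto (fun n => (l + 1) * Ek n) atTop (𝓝 0) := by
      simpa using Ek_tendsto.const_mul (l + 1)
    refine squeeze_zero (fun n => div_nonneg (Vw_nonneg (ok_stt _ hl n) _) (Pk_pos n).le)
      (fun n => ?_) h2
    have h := ok_stt (lt w) hl n
    have h3 := div_le_div_of_nonneg_right
      ((Vw_le_max h (fin w)).trans (max_le_add_of_nonneg h.WS0 h.WT0)) (Pk_pos n).le
    rw [add_div] at h3
    linarith [WS_div_le (lt w) hl n, WT_div_le (lt w) hl n]
  have h2 := (A_tendsto (lt w) hl).add h1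
  rw [add_zero] at h2
  refine tendsto_nhds_unique h2 (tendsto_const_nhds.congr' ?_)
  filter_upwards [eventually_ge_atTop w.len] with n hn
  rw [← Vw_wd0, wd_lt (lt w) w 0 n _ (fun i => by rw [zero_add]) hn]

lemma lt_wd (ω : ℕ → Bool) (e : Wd) (n : ℕ) : ∀ k i, lt (wd ω k n e) (n + i) = lt e i := by
  induction n with
  | zero => intro k i; rw [zero_add]; rfl
  | succ n ih =>
    intro k i
    rw [show n + 1 + i = (n + i) + 1 by ring]
    simp only [wd]
    split_ifs <;> exact ih _ _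

/-- the curve of an infinite word lies under `G` -/
theorem down_inf {ω : ℕ → Bool} {x y : ℝ} (hx : x < 1)
    (h : ∀ l, 0 ≤ l → l * x + y ≤ Vi ω l) : y ≤ G x := by
  have h1 : Tendsto (fun n => G (x - Ek n)) atTop (𝓝 (G x)) := by
    refine (G_continuousOn.continuousAt (Iio_mem_nhds hx)).tendsto.comp ?_
    simpa using (tendsto_const_nhds (x := x)).sub Ek_tendsto
  refine ge_of_tendsto' h1 fun n => down (w := wd ω 0 n .bot) (by linarith [Ek_pos n]) fun l hl => ?_
  rw [Vw_wd0]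
  have h2 := Vi_le_add ω hl n
  have h3 := WS_div_le ω hl n
  simp only [Vw]
  linarith [h l hl]

lemma exists_word {x y : ℝ} (hx : x ≤ 1) (hy : y < G x) :
    ∃ w, ∀ l, 0 ≤ l → l * x + y ≤ Vw w 0 (st0 l 1) := by
  by_contra hc
  refine not_le.2 hy (G_le hx fun q α γ hq h h1 => ?_)
  obtain ⟨w, hw⟩ := up hq h
  by_contra h2
  refine hc ⟨w, fun l hl => ?_⟩
  linarith [hw l hl, mul_le_mul_of_nonneg_left h1 hl]

lemma G_le_of {x c : ℝ} (hx : x ≤ 1)
    (h : ∀ w y, (∀ l, 0 ≤ l → l * x + y ≤ Vw w 0 (st0 l 1)) → y ≤ c) : G x ≤ c :=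
  le_of_forall_lt_imp_le_of_dense fun y hy => by
    obtain ⟨w, hw⟩ := exists_word hx hy
    exact h w y hw

/-- the supremum is attained -/
theorem attained {x : ℝ} (hx : x ≤ 1) : ∃ ω, ∀ l, 0 ≤ l → l * x + G x ≤ Vi ω l := by
  have h1 : ∀ j : ℕ, ∃ w, ∀ l, 0 ≤ l → l * x + (G x - 1 / ((j : ℝ) + 1)) ≤ Vw w 0 (st0 l 1) :=
    fun j => exists_word hx (by linarith [Nat.one_div_pos_of_nat (α := ℝ) (n := j)])
  choose w hw using h1
  obtain ⟨ω, -, φ, hφ, hlim⟩ := (isCompact_univ (X := ℕ → Bool)).tendsto_subseq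
    (x := fun j => lt (w j)) fun _ => Set.mem_univ _
  refine ⟨ω, fun l hl => ?_⟩
  have h2 : Tendsto (fun n => Vi ω l + (l + 1) * Ek n) atTop (𝓝 (Vi ω l)) := by
    simpa using (Ek_tendsto.const_mul (l + 1)).const_add (Vi ω l)
  refine ge_of_tendsto' h2 fun n => ?_
  have h3 : ∀ᶠ j in atTop, ∀ k < n, lt (w (φ j)) k = ω k := by
    have : ∀ k, ∀ᶠ j in atTop, lt (w (φ j)) k = ω k := fun k => by
      have := tendsto_pi_nhds.1 hlim k
      rwa [nhds_discrete, tendsto_pure] at this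
    exact (eventually_all_finite (Set.finite_lt_nat n)).2 fun k _ => this k
  have h4 : Tendsto (fun j => l * x + (G x - 1 / ((φ j : ℝ) + 1))) atTop (𝓝 (l * x + G x)) := by
    have := (tendsto_one_div_add_atTop_nhds_zero_nat (𝕜 := ℝ)).comp hφ.tendsto_atTop
    simpa using (this.const_sub (G x)).const_add (l * x)
  refine le_of_tendsto h4 (h3.mono fun j hj => ?_)
  have h5 := hw (φ j) l hl
  rw [← Vi_lt _ hl] at h5
  have h6 := Vi_le_add (lt (w (φ j))) hl n
  rw [A_congr l hj] at h6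
  linarith [A_le ω hl n, WS_div_le (lt (w (φ j))) hl n, WT_div_le (lt (w (φ j))) hl n]

/-- truncation of the optimal word -/
theorem trunc_inf {x ε : ℝ} (hx : x ≤ 1) (hε : 0 < ε) (n : ℕ) (h : 1 ≤ ε ^ 2 * Pk n) :
    ∃ (ω : ℕ → Bool) (b : Bool), (∀ k, n ≤ k → ω k = b) ∧
      ∀ l, 0 ≤ l → l * (x - ε) + (G x - ε) ≤ Vi ω l := by
  obtain ⟨ω, hω⟩ := attained hx
  obtain ⟨a, b, ha, hb, hab, -, -, hw⟩ := stt_le' ω le_rfl n
  have hP := Pk_pos n
  by_cases hc : 1 ≤ ε * a
  · refine ⟨lt (wd ω 0 n .bot), false, fun k hk => ?_, fun l hl => ?_⟩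
    · obtain ⟨i, rfl⟩ := Nat.exists_eq_add_of_le hk
      rw [lt_wd]; rfl
    · rw [Vi_lt _ hl, Vw_wd0]
      have h1 : (stt ω l n).WS / Pk n ≤ l * ε := by
        rw [div_le_iff₀ hP, ← hab]
        have := mul_le_mul_of_nonneg_left hc (mul_nonneg hl (zero_le_one.trans hb))
        nlinarith [(hw l hl).1]
      simp only [Vw]
      linarith [hω l hl, Vi_le_add ω hl n]
  · refine ⟨lt (wd ω 0 n .top), true, fun k hk => ?_, fun l hl => ?_⟩
    · obtain ⟨i, rfl⟩ := Nat.exists_eq_add_of_le hk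
      rw [lt_wd]; rfl
    · rw [Vi_lt _ hl, Vw_wd0]
      have hb' : 1 ≤ ε * b := by
        by_contra hb'
        have := mul_lt_one_of_nonneg_of_lt_one_left (by positivity) (not_le.1 hc)
          (not_le.1 hb').le
        rw [← hab] at h
        nlinarith
      have h1 : (stt ω l n).WT / Pk n ≤ ε := by
        rw [div_le_iff₀ hP, ← hab]
        have := mul_le_mul_of_nonneg_left hb' (zero_le_one.trans ha)
        nlinarith [(hw l hl).2]
      simp only [Vw]
      nlinarith [hω l hl, Vi_le_add ω hl n, mul_nonneg hl hε.le]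

end Pool.Agent.P.MP_e86632_nt.Cl
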