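import Pool.Agent.P.MP_e86632_nt.Cl.Inf
import Pool.Agent.P.MP_e86632_nt.Cl.Defs

/-! The closed series is the value of the infinite word. -/

namespace Pool.Agent.P.MP_e86632_nt.Cl

open Lex Finset Filter Topology Classical

lemma not_prime_between {k i : ℕ} (h1 : pr k < i) (h2 : i < pr (k + 1)) : ¬ i.Prime := by
  intro hp
  obtain ⟨j, rfl⟩ := pr_surj hp
  rcases le_or_gt j k with h | h
  · exact absurd (pr_le h) (not_le.2 h1)
  · exact absurd (pr_le (show k + 1 ≤ j from h)) (not_le.2 h2)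

lemma filter_succ (Q : ℕ → Prop) {_ : DecidablePred fun i : ℕ => i.Prime ∧ Q i} (k : ℕ) :
    (range (pr (k + 1))).filter (fun i => i.Prime ∧ Q i)
      = (range (pr k + 1)).filter (fun i => i.Prime ∧ Q i) := by
  ext i
  simp only [mem_filter, mem_range, and_congr_left_iff]
  rintro ⟨hp, -⟩
  constructor
  · intro h
    by_contra hc
    exact not_prime_between (by omega) h hp
  · intro h
    have := pr_lt (Nat.lt_succ_self k)
    simp only [Nat.succ_eq_add_one] at this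
    omega

lemma sum_succ (Q : ℕ → Prop) {_ : DecidablePred fun i : ℕ => i.Prime ∧ Q i} (f : ℕ → ℝ) (k : ℕ) :
    ∑ i ∈ range (pr (k + 1)) with i.Prime ∧ Q i, f i
      = (∑ i ∈ range (pr k) with i.Prime ∧ Q i, f i) + if Q (pr k) then f (pr k) else 0 := by
  rw [filter_succ, sum_filter, sum_filter, sum_range_succ]
  simp only [pr_prime, true_and]

lemma M_succ (K : Set ℕ) (k : ℕ) :
    M K (pr (k + 1)) = M K (pr k) * if pr k ∈ K then pr k else 1 := by
  unfold M
  rw [filter_succ, prod_filter, prod_filter, prod_range_succ]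
  simp only [pr_prime, true_and]

lemma filter_zero (Q : ℕ → Prop) {_ : DecidablePred fun i : ℕ => i.Prime ∧ Q i} :
    (range (pr 0)).filter (fun i => i.Prime ∧ Q i) = ∅ := by
  ext i
  simp only [mem_filter, mem_range, pr_zero, notMem_empty, iff_false, not_and]
  intro h hp
  exact absurd hp.two_le (by omega)

lemma M_zero (K : Set ℕ) : M K (pr 0) = 1 := by
  unfold M
  rw [filter_zero, prod_empty]

lemma M_coprime (K : Set ℕ) {p : ℕ} (hp : p.Prime) : (M K p).Coprime p :=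
  Nat.Coprime.prod_left fun i hi => by
    simp only [mem_filter, mem_range] at hi
    exact (Nat.coprime_primes hi.2.1 hp).2 hi.1.ne

lemma M_pos (K : Set ℕ) (p : ℕ) : 0 < M K p :=
  prod_pos fun i hi => (mem_filter.1 hi).2.1.pos

lemma tot_ne (K : Set ℕ) (p : ℕ) : ((M K p).totient : ℝ) ≠ 0 := by
  exact_mod_cast (Nat.totient_pos.2 (M_pos K p)).ne'

lemma tot_mul (K : Set ℕ) (k : ℕ) :
    ((M K (pr k) * pr k).totient : ℝ) = (q k - 1) * (M K (pr k)).totient := by
  rw [Nat.totient_mul (M_coprime K (pr_prime k)), Nat.totient_prime (pr_prime k)]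
  push_cast [Nat.cast_pred (pr_prime k).pos]
  unfold q
  ring

lemma W_in (J : Set ℕ) (l : ℝ) {K : Set ℕ} (c : ℝ) {k : ℕ} (h : pr k ∈ K) :
    W J l K c (pr (k + 1)) = (q k - 1) * W J l K c (pr k) := by
  unfold W
  rw [M_succ, sum_succ (fun i => i ∉ K), if_pos h, if_neg (not_not.2 h), tot_mul]
  ring

lemma W_out (J : Set ℕ) (l : ℝ) {K : Set ℕ} (c : ℝ) {k : ℕ} (h : pr k ∉ K) :
    W J l K c (pr (k + 1)) = W J l K c (pr k) - m J l (pr k) := by
  unfold W
  have := tot_ne K (pr k)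
  rw [M_succ, sum_succ (fun i => i ∉ K), if_neg h, if_pos h, mul_one]
  field_simp
  ring

lemma W_zero (J : Set ℕ) (l : ℝ) (K : Set ℕ) (c : ℝ) : W J l K c (pr 0) = c := by
  unfold W
  rw [M_zero, filter_zero (fun i => i ∉ K)]
  simp

/-- the weight left on the class of `n` -/
noncomputable def U (J : Set ℕ) (l : ℝ) (K : Set ℕ) (c : ℝ) (p n : ℕ) : ℝ :=
  c - ∑ i ∈ range p with i.Prime ∧ (i ∉ K ∧ i ≡ n [MOD M K i]), m J l i

lemma m_eq (J : Set ℕ) (l : ℝ) (p : ℕ) : m J l p = min (U J l J l p p) (U J l Jᶜ 1 p p) := by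
  rw [m]
  unfold U
  rw [sum_filter, sum_filter, sum_range, sum_range]
  simp only [Set.mem_compl_iff, not_not]

lemma U_in (J : Set ℕ) (l : ℝ) {K : Set ℕ} (c : ℝ) {k : ℕ} (h : pr k ∈ K) (n : ℕ) :
    U J l K c (pr (k + 1)) n = U J l K c (pr k) n := by
  unfold U
  rw [sum_succ (fun i => i ∉ K ∧ i ≡ n [MOD M K i]), if_neg (fun a => a.1 h), add_zero]

lemma U_out (J : Set ℕ) (l : ℝ) {K : Set ℕ} (c : ℝ) {k : ℕ} (h : pr k ∉ K) (n : ℕ) :
    U J l K c (pr (k + 1)) n = if n ≡ pr k [MOD M K (pr k)] then U J l K c (pr k) n - m J l (pr k)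
      else U J l K c (pr k) n := by
  unfold U
  rw [sum_succ (fun i => i ∉ K ∧ i ≡ n [MOD M K i])]
  by_cases hn : n ≡ pr k [MOD M K (pr k)]
  · rw [if_pos hn, if_pos ⟨h, hn.symm⟩]; ring
  · rw [if_neg hn, if_neg fun a => hn a.2.symm, add_zero]

lemma U_zero (J : Set ℕ) (l : ℝ) (K : Set ℕ) (c : ℝ) (n : ℕ) : U J l K c (pr 0) n = c := by
  unfold U
  rw [filter_zero (fun i => i ∉ K ∧ i ≡ n [MOD M K i])]
  simp

lemma stt_eq {J : Set ℕ} {ω : ℕ → Bool} (h : ∀ k, ω k = true ↔ pr k ∈ J) (l : ℝ) (k : ℕ) :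
    stt ω l k = ⟨M J (pr k), M Jᶜ (pr k), W J l J l (pr k), W J l Jᶜ 1 (pr k),
      U J l J l (pr k), U J l Jᶜ 1 (pr k)⟩ := by
  induction k with
  | zero =>
    simp only [stt, st0, M_zero, W_zero, St.mk.injEq, true_and]
    exact ⟨funext fun n => (U_zero ..).symm, funext fun n => (U_zero ..).symm⟩
  | succ k ih =>
    have hm : mw (stt ω l k) k = m J l (pr k) := by rw [ih, m_eq]; rfl
    simp only [stt]
    split_ifs with hk
    · have h1 : pr k ∈ J := (h k).1 hk
      have h2 : pr k ∉ Jᶜ := not_not.2 h1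
      rw [sJ, hm, ih]
      simp only [St.stepJ, St.mk.injEq, M_succ, if_pos h1, if_neg h2, mul_one, W_in J l l h1,
        W_out J l 1 h2, true_and, q]
      exact ⟨funext fun n => (U_in J l l h1 n).symm, funext fun n => (U_out J l 1 h2 n).symm⟩
    · have h1 : pr k ∉ J := fun a => hk ((h k).2 a)
      have h2 : pr k ∈ Jᶜ := h1
      rw [sI, hm, ih]
      simp only [St.stepI, St.mk.injEq, M_succ, if_pos h2, if_neg h1, mul_one, W_in J l 1 h2,
        W_out J l l h1, true_and, q]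
      exact ⟨funext fun n => (U_out J l l h1 n).symm, funext fun n => (U_in J l 1 h2 n).symm⟩

lemma M_univ (k : ℕ) : (M Set.univ (pr k) : ℝ) = Pk k ∧ ((M Set.univ (pr k)).totient : ℝ) = Fk k := by
  induction k with
  | zero => simp [M_zero, Pk_zero, Fk_zero]
  | succ k ih =>
    rw [M_succ, if_pos (Set.mem_univ _), tot_mul, Pk_succ, Fk_succ, ih.2]
    push_cast
    rw [ih.1]
    exact ⟨rfl, mul_comm _ _⟩

lemma primorial_eq (n : ℕ) : primorial n = M Set.univ (pr n.primeCounting) := by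
  unfold primorial M
  refine prod_congr ?_ fun _ _ => rfl
  ext i
  simp only [mem_filter, mem_range, Set.mem_univ, and_true, and_congr_left_iff]
  intro hp
  obtain ⟨j, rfl⟩ := pr_surj hp
  have h := Nat.lt_nth_iff_count_lt Nat.infinite_setOfPred_prime (a := j) (b := n + 1)
  constructor
  · intro h1
    exact pr_lt (h.2 h1)
  · intro h1
    refine h.1 ?_
    by_contra hc
    exact absurd (pr_le (not_lt.1 hc)) (not_le.2 h1)

lemma primorial_real (n : ℕ) : (primorial n : ℝ) = Pk n.primeCounting := by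
  rw [primorial_eq, (M_univ _).1]

lemma totient_primorial (n : ℕ) : ((primorial n).totient : ℝ) = Fk n.primeCounting := by
  rw [primorial_eq, (M_univ _).2]

lemma count_pr (k : ℕ) : Nat.count Nat.Prime (pr k) = k :=
  Nat.count_nth_of_infinite Nat.infinite_setOfPred_prime k

lemma primeCounting_pr (k : ℕ) : (pr k).primeCounting = k + 1 := by
  unfold Nat.primeCounting Nat.primeCounting'
  rw [Nat.count_succ, count_pr, if_pos (pr_prime k)]

lemma term_eq {J : Set ℕ} {ω : ℕ → Bool} (h : ∀ k, ω k = true ↔ pr k ∈ J) (l : ℝ) (k : ℕ) :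
    term J l (eqP k) = tm ω l k := by
  unfold term tm
  rw [stt_eq h, eqP_val, primorial_real, primeCounting_pr]
  simp only [h k]

lemma V_eq_Vi {J : Set ℕ} {ω : ℕ → Bool} (h : ∀ k, ω k = true ↔ pr k ∈ J) (l : ℝ) :
    V J l = Vi ω l := by
  unfold V Vi
  rw [← eqP.tsum_eq]
  exact tsum_congr (term_eq h l)

noncomputable def wOf (J : Set ℕ) (k : ℕ) : Bool := decide (pr k ∈ J)

lemma wOf_spec (J : Set ℕ) (k : ℕ) : wOf J k = true ↔ pr k ∈ J := decide_eq_true_iff

def sOf (ω : ℕ → Bool) : Set ℕ := {p | ω (Nat.count Nat.Prime p) = true}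

lemma sOf_spec (ω : ℕ → Bool) (k : ℕ) : ω k = true ↔ pr k ∈ sOf ω := by
  simp only [sOf, Set.mem_ofPred_eq, count_pr]

theorem term_summable (J : Set ℕ) {l : ℝ} (hl : 0 ≤ l) : Summable (term J l) := by
  rw [← eqP.summable_iff]
  exact (tm_summable (wOf J) hl).congr fun k => (term_eq (wOf_spec J) l k).symm

theorem formula {x : ℝ} (hx0 : 0 < x) (hx : x < 1) :
    IsLeast {y | ∃ J : Set ℕ, ∀ l : ℝ, 0 ≤ l → 1 + l * x - V J l ≤ y} (fstar x) := by
  rw [fstar_eq hx0.le hx]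
  constructor
  · obtain ⟨ω, h⟩ := attained hx.le
    exact ⟨sOf ω, fun l hl => by rw [V_eq_Vi (sOf_spec ω)]; linarith [h l hl]⟩
  · rintro y ⟨J, h⟩
    have := down_inf (ω := wOf J) (y := 1 - y) hx fun l hl => by
      rw [← V_eq_Vi (wOf_spec J)]; linarith [h l hl]
    linarith

theorem truncation {x ε : ℝ} (hx0 : 0 < x) (hx : x < 1) (hε : 0 < ε) (n : ℕ)
    (h : 1 ≤ ε ^ 2 * primorial n) : ∃ J : Set ℕ, (J ⊆ Set.Iic n ∨ Jᶜ ⊆ Set.Iic n) ∧
      ∀ l : ℝ, 0 ≤ l → 1 + l * (x - ε) - V J l ≤ fstar x + ε := by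
  rw [primorial_real] at h
  obtain ⟨ω, b, h1, h2⟩ := trunc_inf hx.le hε _ h
  have h3 : ∀ p, n < p → ω (Nat.count Nat.Prime p) = b := fun p hp =>
    h1 _ (Nat.count_monotone Nat.Prime (show n + 1 ≤ p from hp))
  refine ⟨sOf ω, ?_, fun l hl => ?_⟩
  · cases b
    · refine Or.inl fun p hp => (not_lt.1 fun hc => ?_ : p ≤ n)
      have h4 : ω (Nat.count Nat.Prime p) = true := hp
      rw [h3 p hc] at h4
      exact absurd h4 (by decide)
    · exact Or.inr fun p hp => (not_lt.1 fun hc => hp (h3 p hc) : p ≤ n)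
  · rw [V_eq_Vi (sOf_spec ω), fstar_eq hx0.le hx]
    linarith [h2 l hl]

end Pool.Agent.P.MP_e86632_nt.Cl
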