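import Pool.Agent.P.MP_e86632_nt.Cl.Vals

/-! Further evaluations of `f*` (not handed in): at `1 / 6`, on an interval, and at `1 / 2`. -/

namespace Pool.Agent.P.MP_e86632_nt.Cl

theorem fstar_sixth : fstar (1 / 6) = 19 / 30 := by
  rw [fstar_eq (by norm_num) (by norm_num), G_sixth]; norm_num

theorem fstar_piece {x : ℝ} (h1 : 73 / 330 ≤ x) (h2 : x ≤ 47 / 210) :
    fstar x = 4 / 3 * x + 2903 / 6930 := by
  rw [fstar_eq (by linarith) (by linarith), G_piece h1 h2]; ring

theorem fstar_half : 0 < 11 / 12 - 1 / primorial 23 - fstar (1 / 2) ∧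
    11 / 12 - 1 / primorial 23 - fstar (1 / 2) < 1 / 10 ^ 100 := by
  have h23 : (primorial 23 : ℝ) = 223092870 := by
    rw [show primorial 23 = 223092870 by decide +kernel]; norm_num
  have : (1 : ℝ) / 10 ^ 101 < 1 / 10 ^ 100 := by norm_num
  rw [fstar_eq (x := 1 / 2) (by norm_num) (by norm_num), h23]
  constructor <;> linarith [G_half_gt, G_half_le]

end Pool.Agent.P.MP_e86632_nt.Cl
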