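import Pool.Agent.P.MP_e86632_nt.Cl.Inf

/-! The function `G` near the reciprocal of a primorial. -/

namespace Pool.Agent.P.MP_e86632_nt.Cl

open Lex Finset Filter Topology

/-- the states along the constant word -/
noncomputable def s0 (l : ℝ) (j : ℕ) : St := stt (fun _ => false) l j

noncomputable def rr (l : ℝ) (j : ℕ) : ℝ := max (l - j) 0

lemma s0_succ (l : ℝ) (j : ℕ) : s0 l (j + 1) = sI (s0 l j) j := rfl

lemma s0_eq {l : ℝ} (hl : 0 ≤ l) (j : ℕ) : (s0 l j).MS = 1 ∧ (s0 l j).WS = rr l j ∧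
    (s0 l j).WT = Fk j ∧ (∀ n, (s0 l j).u n = rr l j) ∧ ∀ n, (s0 l j).v n = 1 := by
  induction j with
  | zero => simp [s0, stt, st0, rr, Fk_zero, hl]
  | succ j ih =>
    obtain ⟨h1, h2, h3, h4, h5⟩ := ih
    have hm : mw (s0 l j) j = min (rr l j) 1 := by simp only [mw, St.m, h4, h5]
    have hr : rr l j - min (rr l j) 1 = rr l (j + 1) := by
      simp only [rr, min_def, max_def]
      push_cast
      split_ifs <;> linarith
    rw [s0_succ]
    refine ⟨h1, by rw [sI_WS, hm, h2, hr], by rw [sI_WT, h3, Fk_succ, mul_comm], fun n => ?_, h5⟩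
    simp only [sI, St.stepI, h1, Nat.modEq_one, if_true, h4, hm, hr]

lemma mw_s0 {l : ℝ} (hl : 0 ≤ l) (j : ℕ) : mw (s0 l j) j = min (rr l j) 1 := by
  simp only [mw, St.m, (s0_eq hl j).2.2.2.1, (s0_eq hl j).2.2.2.2]

lemma Ek_sub (j : ℕ) : Ek j - Ek (j + 1) = Fk j / Pk (j + 1) := by
  have h1 := (Pk_pos j).ne'
  have h2 := (q_pos j).ne'
  simp only [Ek, Fk_succ, Pk_succ]
  field_simp
  ring

lemma step0 {l : ℝ} (hl : 0 ≤ l) (j : ℕ) (w : Wd) :
    1 - Ek j + Vw (.I w) j (s0 l j) / Pk j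
      = 1 - Ek (j + 1) + Vw w (j + 1) (s0 l (j + 1)) / Pk (j + 1) := by
  have h1 := (Pk_pos j).ne'
  have h2 := (q_pos j).ne'
  have h3 := Ek_sub j
  have h4 : Vw (.I w) j (s0 l j) / Pk j
      = Fk j / Pk (j + 1) + Vw w (j + 1) (s0 l (j + 1)) / Pk (j + 1) := by
    simp only [Vw, (s0_eq hl j).2.2.1, s0_succ, Pk_succ]
    field_simp
  linarith

lemma dec (w : Wd) (k : ℕ) : ∃ j ≤ k, ∃ w', (∀ l, 0 ≤ l →
    Vw w 0 (st0 l 1) = 1 - Ek j + Vw w' j (s0 l j) / Pk j) ∧ (j = k ∨ ∃ w'', w' = .J w'') := by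
  induction k with
  | zero =>
    exact ⟨0, le_rfl, w, fun l _ => by simp [Ek, Fk_zero, Pk_zero, s0, stt], Or.inl rfl⟩
  | succ k ih =>
    obtain ⟨j, hj, w', h1, rfl | h2⟩ := ih
    · have hq := (q_pos j).ne'
      cases w' with
      | bot =>
        refine ⟨j + 1, le_rfl, .bot, fun l hl => ?_, Or.inl rfl⟩
        rw [h1 l hl, ← step0 hl]
        simp only [Vw, sI_WT]
        congr 2
        field_simp
        ring
      | top =>
        refine ⟨j, by omega, .J .top, fun l hl => ?_, Or.inr ⟨_, rfl⟩⟩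
        rw [h1 l hl]
        simp only [Vw, sJ_WS]
        congr 2
        field_simp
        ring
      | I w'' => exact ⟨j + 1, le_rfl, w'', fun l hl => by rw [h1 l hl, step0 hl], Or.inl rfl⟩
      | J w'' => exact ⟨j, by omega, _, h1, Or.inr ⟨_, rfl⟩⟩
    · exact ⟨j, by omega, w', h1, Or.inr h2⟩

lemma bK {l : ℝ} (hl : 0 ≤ l) (k : ℕ) (w : Wd) :
    Vw w k (s0 l k) / Pk k ≤ (rr l k * sw w k + Fk k * tw w k) / Pk k := by
  have h := bw3.up w k _ (ok_stt (fun _ => false) hl k)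
  have e := s0_eq hl k
  change Vw w k (s0 l k) ≤ (s0 l k).WS * _ + (s0 l k).WT * _ at h
  rw [e.2.1, e.2.2.1] at h
  exact div_le_div_of_nonneg_right h (Pk_pos k).le

lemma bJ {l : ℝ} (hl : 0 ≤ l) (j : ℕ) (w : Wd) :
    Vw (.J w) j (s0 l j) / Pk j ≤ (rr l j + (q j - 1) * rr l j * sw w (j + 1)
      + (Fk j - min (rr l j) 1) * tw w (j + 1)) / Pk (j + 1) := by
  have ho : Ok j (s0 l j) := ok_stt (fun _ => false) hl j
  have h := bw3.up w (j + 1) (sJ (s0 l j) j) (bw2.okJ j _ _ ho (ho.mw0 le_rfl) le_rfl)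
  have e := s0_eq hl j
  rw [sJ_WS, sJ_WT, mw_s0 hl, e.2.1, e.2.2.1] at h
  simp only [Vw, e.2.1]
  rw [div_div, mul_comm (q j), ← Pk_succ]
  exact div_le_div_of_nonneg_right (by linarith) (Pk_pos _).le

lemma slope_le {x y a b L : ℝ} (h : ∀ l, L ≤ l → l * x + y ≤ a * l + b) : x ≤ a := by
  by_contra hc
  have hd : 0 < x - a := by linarith [not_le.1 hc]
  have h1 := h (max L ((b - y + 1) / (x - a))) (le_max_left _ _)
  have h2 := mul_le_mul_of_nonneg_right (le_max_right L ((b - y + 1) / (x - a))) hd.le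
  rw [div_mul_cancel₀ _ hd.ne'] at h2
  linarith

lemma Fk_three : Fk 3 = 8 := by
  simp only [Fk, prod_range_succ, prod_range_zero, q_zero, q_one, q_two]; norm_num

lemma Fk_big {j : ℕ} (h : 3 ≤ j) : q j + 1 ≤ Fk j := by
  induction j, h using Nat.le_induction with
  | base => rw [Fk_three, q_three]; norm_num
  | succ j hj ih =>
    have h1 := q_ge_seven hj
    have h2 : q (j + 1) ≤ 2 * q j := by unfold q; exact_mod_cast pr_bertrand j
    rw [Fk_succ]
    nlinarith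

lemma Pk_mono {i j : ℕ} (h : i ≤ j) : Pk i ≤ Pk j := by
  induction j, h using Nat.le_induction with
  | base => exact le_rfl
  | succ j _ ih => rw [Pk_succ]; nlinarith [Pk_pos j, q_ge_two j]

lemma gap (j0 d : ℕ) : ∀ i, i + d = j0 → (Fk j0 + d) / Pk (j0 + 1) ≤ Ek i - Ek (j0 + 1) := by
  induction d with
  | zero => rintro i rfl; simp [Ek_sub]
  | succ d ih =>
    intro i hi
    have h1 := ih (i + 1) (by omega)
    have h2 := Ek_sub i
    have h3 : 1 / Pk (j0 + 1) ≤ Fk i / Pk (i + 1) :=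
      div_le_div₀ (by linarith [Fk_ge i]) (Fk_ge i) (Pk_pos _) (Pk_mono (by omega))
    push_cast
    rw [← add_assoc, add_div]
    linarith

/-- three kinds of words -/
lemma tri {j0 : ℕ} (h0 : 2 ≤ j0) : ∃ σ : ℝ, 0 < σ ∧ ∀ w x y,
    (∀ l, 0 ≤ l → l * x + y ≤ Vw w 0 (st0 l 1)) →
    (∃ w', Pk (j0 + 1) * x ≤ sw w' (j0 + 1) ∧
      y ≤ 1 - Ek (j0 + 1) - (j0 + 1) * x + Ek (j0 + 1) * tw w' (j0 + 1)) ∨
    (∃ w', Pk (j0 + 1) * x ≤ 1 + (q j0 - 1) * sw w' (j0 + 1) ∧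
      y ≤ 1 - Ek (j0 + 1) - (j0 + 1) * x - σ * (1 - tw w' (j0 + 1))) ∨
    y ≤ 1 - Ek (j0 + 1) - (j0 + 1) / Pk (j0 + 1) - σ + (j0 + 1) * |x - 1 / Pk (j0 + 1)| := by
  have hP := Pk_pos (j0 + 1)
  refine ⟨1 / (3 * Pk (j0 + 1)), by positivity, fun w x y h => ?_⟩
  obtain ⟨j, hj, w', h1, h2⟩ := dec w (j0 + 1)
  have hj0 : (0 : ℝ) ≤ j0 := Nat.cast_nonneg _
  have ha1 := le_abs_self (x - 1 / Pk (j0 + 1))
  have ha2 := neg_abs_le (x - 1 / Pk (j0 + 1))
  have ha3 := abs_nonneg (x - 1 / Pk (j0 + 1))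
  rcases eq_or_lt_of_le hj with rfl | hj'
  · refine Or.inl ⟨w', ?_, ?_⟩
    · rw [mul_comm, ← le_div_iff₀ hP]
      refine slope_le (L := j0 + 1) (y := y) (b := 1 - Ek (j0 + 1) + (-(j0 + 1) * sw w' (j0 + 1)
        + Fk (j0 + 1) * tw w' (j0 + 1)) / Pk (j0 + 1)) fun l hl => ?_
      have hl0 : 0 ≤ l := by linarith
      have h3 := h l hl0
      have h4 := bK hl0 (j0 + 1) w'
      have h5 : rr l (j0 + 1) = l - (j0 + 1) := by
        unfold rr; push_cast; exact max_eq_left (by linarith)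
      rw [h1 l hl0] at h3
      rw [h5] at h4
      refine h3.trans ((add_le_add_right h4 _).trans (le_of_eq ?_))
      ring
    · have hl0 : (0 : ℝ) ≤ j0 + 1 := by linarith
      have h3 := h _ hl0
      have h4 := bK hl0 (j0 + 1) w'
      have h5 : rr (j0 + 1) (j0 + 1) = 0 := by unfold rr; push_cast; simp
      rw [h1 _ hl0] at h3
      rw [h5, zero_mul, zero_add, mul_comm, mul_div_assoc, ← Ek] at h4
      linarith
  obtain ⟨w'', rfl⟩ := h2.resolve_left hj'.ne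
  have hb : ∀ l, 0 ≤ l → l * x + y ≤ 1 - Ek j + (rr l j + (q j - 1) * rr l j * sw w'' (j + 1)
      + (Fk j - min (rr l j) 1) * tw w'' (j + 1)) / Pk (j + 1) := fun l hl => by
    linarith [h l hl, h1 l hl, bJ hl j w'']
  have s0' := bw1.s0 w'' (j + 1)
  have t0' := bw1.t0 w'' (j + 1)
  have st' := bw1.st w'' (j + 1)
  have hz : (j : ℝ) * x + y ≤ 1 - Ek j + Fk j * tw w'' (j + 1) / Pk (j + 1) := by
    have h3 := hb j (Nat.cast_nonneg _)
    have h5 : rr j j = 0 := by unfold rr; simp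
    simpa [h5] using h3
  have ho : ((j : ℝ) + 1) * x + y ≤ 1 - Ek j + (1 + (q j - 1) * sw w'' (j + 1)
      + (Fk j - 1) * tw w'' (j + 1)) / Pk (j + 1) := by
    have h3 := hb (j + 1) (by positivity)
    have h5 : rr (j + 1) j = 1 := by unfold rr; simp
    simpa [h5] using h3
  have E2 : Ek 2 = 1 / 3 := by
    simp only [Ek, Fk, Pk, prod_range_succ, prod_range_zero, q_zero, q_one]; norm_num
  have E3 : Ek 3 = 4 / 15 := by
    simp only [Ek, Fk, Pk, prod_range_succ, prod_range_zero, q_zero, q_one, q_two]; norm_num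
  have P3 : Pk 3 = 30 := by
    simp only [Pk, prod_range_succ, prod_range_zero, q_zero, q_one, q_two]; norm_num
  rcases eq_or_lt_of_le (show j ≤ j0 by omega) with rfl | hj''
  · have hs : Pk (j + 1) * x ≤ 1 + (q j - 1) * sw w'' (j + 1) := by
      rw [mul_comm, ← le_div_iff₀ hP]
      refine slope_le (L := j + 1) (y := y) (b := 1 - Ek j + (-j * (1 + (q j - 1) * sw w'' (j + 1))
        + (Fk j - 1) * tw w'' (j + 1)) / Pk (j + 1)) fun l hl => ?_
      have h3 := hb l (by linarith)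
      have h5 : rr l j = l - j := max_eq_left (by linarith)
      rw [h5, min_eq_right (by linarith)] at h3
      refine h3.trans (le_of_eq ?_)
      ring
    have key : (q j - 1) * sw w'' (j + 1) - (Fk j - 1) * (1 - tw w'' (j + 1))
        ≤ -((1 - tw w'' (j + 1)) / 3) → y ≤ 1 - Ek (j + 1) - (j + 1) * x
          - 1 / (3 * Pk (j + 1)) * (1 - tw w'' (j + 1)) := by
      intro h3
      have h4 := div_le_div_of_nonneg_right h3 hP.le
      have h5 := Ek_sub j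
      have e1 : (1 + (q j - 1) * sw w'' (j + 1) + (Fk j - 1) * tw w'' (j + 1)) / Pk (j + 1)
          = ((q j - 1) * sw w'' (j + 1) - (Fk j - 1) * (1 - tw w'' (j + 1))) / Pk (j + 1)
            + Fk j / Pk (j + 1) := by ring
      have e2 : -((1 - tw w'' (j + 1)) / 3) / Pk (j + 1)
          = -(1 / (3 * Pk (j + 1)) * (1 - tw w'' (j + 1))) := by field_simp
      linarith
    rcases eq_or_lt_of_le h0 with rfl | h3
    · have F2 : Fk 2 = 2 := by
        simp only [Fk, prod_range_succ, prod_range_zero, q_zero, q_one]; norm_num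
      rcases bw1.dich w'' 3 with h4 | h4
      · have h5 := (bw1.low w'' 3 h4).2
        rw [q_three] at h5
        exact Or.inr (Or.inl ⟨w'', hs, key (by rw [q_two, F2]; linarith)⟩)
      · rw [q_three] at h4
        refine Or.inr (Or.inr ?_)
        rw [F2, E2, P3] at hz
        rw [P3] at ha2 ha3 ⊢
        rw [E3]
        push_cast at hz ⊢
        linarith
    · have h4 := Fk_big h3
      have h5 := q_ge_two j
      refine Or.inr (Or.inl ⟨w'', hs, key ?_⟩)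
      nlinarith
  refine Or.inr (Or.inr ?_)
  have hz' : (j : ℝ) * x + y ≤ 1 - Ek (j + 1) := by
    have h3 := Ek_sub j
    have h4 : Fk j * tw w'' (j + 1) / Pk (j + 1) ≤ Fk j / Pk (j + 1) :=
      div_le_div_of_nonneg_right (by nlinarith [Fk_ge j]) (Pk_pos _).le
    linarith
  rcases eq_or_lt_of_le h0 with rfl | h3
  · have E1 : Ek 1 = 1 / 2 := by
      simp only [Ek, Fk, Pk, prod_range_succ, prod_range_zero, q_zero]; norm_num
    have F1 : Fk 1 = 1 := by simp only [Fk, prod_range_succ, prod_range_zero, q_zero]; norm_num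
    have P2 : Pk 2 = 6 := by
      simp only [Pk, prod_range_succ, prod_range_zero, q_zero, q_one]; norm_num
    rw [P3] at ha2 ha3 ⊢
    rw [E3]
    push_cast
    obtain rfl | rfl : j = 0 ∨ j = 1 := by omega
    · rw [zero_add, E1] at hz'
      push_cast at hz'
      linarith
    · rw [F1, E1, P2] at hz ho
      rw [q_one] at ho
      push_cast at hz ho
      rcases bw1.dich w'' 2 with h4 | h4
      · have h5 := (bw1.low w'' 2 h4).2
        rw [q_two] at h5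
        linarith
      · rw [q_two] at h4
        linarith
  · obtain ⟨d, rfl⟩ : ∃ d, j0 = j + 1 + d := ⟨j0 - (j + 1), by omega⟩
    have h4 := gap (j + 1 + d) d (j + 1) rfl
    have h5 := Fk_big h3
    have h6 := q_ge_seven h3
    have h7 : ((d : ℝ) + 3) / Pk (j + 1 + d + 1) ≤ (Fk (j + 1 + d) + d) / Pk (j + 1 + d + 1) :=
      div_le_div_of_nonneg_right (by linarith) hP.le
    have hjn : (0 : ℝ) ≤ j := Nat.cast_nonneg _
    have hdn : (0 : ℝ) ≤ d := Nat.cast_nonneg _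
    have h8 := mul_le_mul_of_nonneg_left ha2 hjn
    have h9 := mul_nonneg (show (0 : ℝ) ≤ d + 2 by linarith) ha3
    have e1 : 1 / (3 * Pk (j + 1 + d + 1)) ≤ 1 / Pk (j + 1 + d + 1) :=
      one_div_le_one_div_of_le hP (by linarith)
    have e2 : ((d : ℝ) + 3) / Pk (j + 1 + d + 1) + j * (1 / Pk (j + 1 + d + 1))
        = (j + 1 + d + 1) / Pk (j + 1 + d + 1) + 1 / Pk (j + 1 + d + 1) := by ring
    push_cast
    linarith

lemma small_t (N : ℕ) : ∀ k, 1 ≤ k → ∃ δ : ℝ, 0 < δ ∧ ∀ w, 1 - sw w k ≤ δ →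
    2 ^ N * tw w k ≤ 1 - sw w k := by
  induction N with
  | zero => exact fun k _ => ⟨1, one_pos, fun w _ => by linarith [bw1.st w k]⟩
  | succ N ih =>
    intro k hk
    obtain ⟨δ, hδ, h⟩ := ih (k + 1) (by omega)
    have hq := q_ge_three hk
    have h3 : 1 / q k ≤ 1 / 3 := one_div_le_one_div_of_le (by norm_num) hq
    refine ⟨min δ 1 / 2, by positivity, fun w hw => ?_⟩
    have m1 := min_le_left δ 1
    have m2 := min_le_right δ 1
    obtain ⟨w', e1, e2, -⟩ := bw1.asJ w k ((bw1.dich w k).resolve_left (by linarith))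
    simp only [sw, tw] at e1 e2
    have s1 : 0 ≤ 1 - sw w' (k + 1) := by linarith [bw1.st w' (k + 1), bw1.t0 w' (k + 1)]
    have e3 : 1 - sw w k = (1 - 1 / q k) * (1 - sw w' (k + 1)) := by rw [e1]; ring
    have h4 := h w' (by nlinarith)
    have h5 : 0 ≤ 2 ^ N * tw w' (k + 1) := mul_nonneg (by positivity) (bw1.t0 _ _)
    have e4 : 2 ^ (N + 1) * tw w k = 2 * (1 / q k) * (2 ^ N * tw w' (k + 1)) := by rw [e2]; ring
    rw [e3, e4]
    have h6 : 0 ≤ 1 / q k := (one_div_pos.2 (q_pos k)).le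
    nlinarith

lemma small_t' {M : ℝ} {k : ℕ} (hk : 1 ≤ k) : ∃ δ : ℝ, 0 < δ ∧ ∀ w, 1 - sw w k ≤ δ →
    M * tw w k ≤ 1 - sw w k := by
  obtain ⟨N, hN⟩ := pow_unbounded_of_one_lt M (one_lt_two (α := ℝ))
  obtain ⟨δ, hδ, h⟩ := small_t N k hk
  exact ⟨δ, hδ, fun w hw => (mul_le_mul_of_nonneg_right hN.le (bw1.t0 w k)).trans (h w hw)⟩

lemma G_low (k : ℕ) {x : ℝ} (hx0 : 0 ≤ x) (hx : x ≤ 1 / Pk k) (hx1 : x < 1) :
    1 - Ek k - k * x ≤ G x := by
  refine down (w := wd (fun _ => false) 0 k .top) hx1 fun l hl => ?_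
  have hA : ∀ j, A (fun _ => false) l j = 1 - Ek j := by
    intro j
    induction j with
    | zero => simp [A, Ek, Fk_zero, Pk_zero]
    | succ j ih =>
      have h1 : tm (fun _ => false) l j = Fk j / Pk (j + 1) := by
        rw [← (s0_eq hl j).2.2.1]; rfl
      rw [A, sum_range_succ, ← A, ih, h1, ← Ek_sub]
      ring
  rw [Vw_wd0, hA]
  have h2 : Vw .top k (stt (fun _ => false) l k) = rr l k := (s0_eq hl k).2.1
  rw [h2, div_eq_mul_one_div]
  have h3 : (l - k) * x ≤ rr l k * x := mul_le_mul_of_nonneg_right (le_max_left _ _) hx0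
  have h4 : rr l k * x ≤ rr l k * (1 / Pk k) := mul_le_mul_of_nonneg_left hx (le_max_right _ _)
  linarith

lemma inv_Pk_lt {k : ℕ} (hk : 1 ≤ k) : 1 / Pk k < 1 := by
  have h := Pk_mono hk
  have h1 : Pk 1 = 2 := by simp only [Pk, prod_range_succ, prod_range_zero, q_zero]; norm_num
  rw [div_lt_one (Pk_pos k)]
  linarith

/-- upper bound on the left -/
lemma G_left {j0 : ℕ} (h0 : 2 ≤ j0) {c : ℝ} (hc : 0 < c) : ∃ δ : ℝ, 0 < δ ∧ ∀ x,
    1 / Pk (j0 + 1) - δ ≤ x → x ≤ 1 / Pk (j0 + 1) →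
    G x ≤ 1 - Ek (j0 + 1) - (j0 + 1) * x + c * (1 / Pk (j0 + 1) - x) := by
  obtain ⟨σ, hσ, h⟩ := tri h0
  have hP := Pk_pos (j0 + 1)
  obtain ⟨δ, hδ, hs⟩ := small_t' (M := Fk (j0 + 1) / c) (k := j0 + 1) (by omega)
  refine ⟨δ / Pk (j0 + 1), by positivity, fun x h1 h2 =>
    G_le_of (h2.trans (inv_Pk_lt (by omega)).le) fun w y hy => ?_⟩
  have h3 := mul_nonneg hc.le (sub_nonneg.2 h2)
  rcases h w x y hy with ⟨w', a, b⟩ | ⟨w', -, b⟩ | b
  · have h4 : 1 - sw w' (j0 + 1) ≤ Pk (j0 + 1) * (1 / Pk (j0 + 1) - x) := by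
      rw [mul_sub, mul_one_div_cancel hP.ne']; linarith
    have h5 : Pk (j0 + 1) * (1 / Pk (j0 + 1) - x) ≤ δ := by
      rw [mul_comm, ← le_div_iff₀ hP]; linarith
    have h6 := (hs w' (h4.trans h5)).trans h4
    have h7 : Ek (j0 + 1) * tw w' (j0 + 1) ≤ c * (1 / Pk (j0 + 1) - x) := by
      have e : Ek (j0 + 1) * tw w' (j0 + 1)
          = c / Pk (j0 + 1) * (Fk (j0 + 1) / c * tw w' (j0 + 1)) := by
        rw [Ek]; field_simp
      rw [e]
      refine (mul_le_mul_of_nonneg_left h6 (by positivity)).trans (le_of_eq ?_)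
      field_simp
    linarith
  · have := mul_nonneg hσ.le (show 0 ≤ 1 - tw w' (j0 + 1) by
      linarith [bw1.st w' (j0 + 1), bw1.s0 w' (j0 + 1)])
    linarith
  · rw [abs_of_nonpos (sub_nonpos.2 h2), div_eq_mul_one_div ((j0 : ℝ) + 1)] at b
    linarith

lemma G_val {j0 : ℕ} (h0 : 2 ≤ j0) :
    G (1 / Pk (j0 + 1)) = 1 - Ek (j0 + 1) - (j0 + 1) * (1 / Pk (j0 + 1)) := by
  have hP := Pk_pos (j0 + 1)
  refine le_antisymm ?_ ?_
  · obtain ⟨δ, hδ, h⟩ := G_left h0 one_pos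
    simpa using h _ (by linarith) le_rfl
  · simpa using G_low (j0 + 1) (by positivity) le_rfl (inv_Pk_lt (by omega))

/-- upper bound on the right -/
lemma G_right {j0 : ℕ} (h0 : 2 ≤ j0) {M : ℝ} (hM : 0 < M) : ∃ δ : ℝ, 0 < δ ∧ ∀ x,
    1 / Pk (j0 + 1) < x → x ≤ 1 / Pk (j0 + 1) + δ → x ≤ 1 →
    G x ≤ G (1 / Pk (j0 + 1)) - M * (x - 1 / Pk (j0 + 1)) := by
  obtain ⟨σ, hσ, h⟩ := tri h0
  have hP := Pk_pos (j0 + 1)
  have hq := q_ge_two j0
  have hj : (0 : ℝ) < j0 + 1 := by positivity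
  obtain ⟨δ, hδ, hs⟩ := small_t' (M := M * (q j0 - 1) / (σ * Pk (j0 + 1))) (k := j0 + 1) (by omega)
  refine ⟨min (σ * δ / M) (σ / (M + (j0 + 1))), by positivity, fun x h1 h2 h3 =>
    G_le_of h3 fun w y hy => ?_⟩
  rw [G_val h0]
  have h4 : 1 < Pk (j0 + 1) * x := by rwa [div_lt_iff₀ hP, mul_comm] at h1
  have h5 := mul_le_mul_of_nonneg_left h1.le hj.le
  rcases h w x y hy with ⟨w', a, -⟩ | ⟨w', a, b⟩ | b
  · linarith [bw1.st w' (j0 + 1), bw1.t0 w' (j0 + 1)]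
  · suffices M * (x - 1 / Pk (j0 + 1)) ≤ σ * (1 - tw w' (j0 + 1)) by linarith
    rcases le_total (1 - tw w' (j0 + 1)) δ with h6 | h6
    · have h7 := hs w'.flip (by rwa [sw_flip])
      rw [sw_flip, tw_flip] at h7
      refine le_trans ?_ (mul_le_mul_of_nonneg_left h7 hσ.le)
      have e : σ * (M * (q j0 - 1) / (σ * Pk (j0 + 1)) * sw w' (j0 + 1))
          = M / Pk (j0 + 1) * ((q j0 - 1) * sw w' (j0 + 1)) := by field_simp
      have e' : M * (x - 1 / Pk (j0 + 1)) = M / Pk (j0 + 1) * (Pk (j0 + 1) * x - 1) := by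
        field_simp
      rw [e, e']
      exact mul_le_mul_of_nonneg_left (by linarith) (by positivity)
    · have h7 : x - 1 / Pk (j0 + 1) ≤ σ * δ / M := by linarith [min_le_left (σ * δ / M) (σ / (M + (j0 + 1)))]
      rw [le_div_iff₀ hM] at h7
      nlinarith
  · have h7 : x - 1 / Pk (j0 + 1) ≤ σ / (M + (j0 + 1)) := by
      linarith [min_le_right (σ * δ / M) (σ / (M + (j0 + 1)))]
    rw [le_div_iff₀ (by positivity)] at h7
    rw [abs_of_nonneg (sub_nonneg.2 h1.le), div_eq_mul_one_div ((j0 : ℝ) + 1)] at b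
    linarith

theorem cusp {k : ℕ} (hk : 3 ≤ k) : fstar (1 / Pk k) = (Fk k + k) / Pk k ∧
    HasDerivWithinAt fstar k (Set.Iic (1 / Pk k)) (1 / Pk k) ∧
    Tendsto (slope fstar (1 / Pk k)) (𝓝[>] (1 / Pk k)) atTop := by
  obtain ⟨j0, rfl⟩ : ∃ j0, k = j0 + 1 := ⟨k - 1, by omega⟩
  have h0 : 2 ≤ j0 := by omega
  have hP := Pk_pos (j0 + 1)
  have ha0 : 0 < 1 / Pk (j0 + 1) := by positivity
  have ha1 : 1 / Pk (j0 + 1) < 1 := inv_Pk_lt (by omega)
  have hv := fstar_eq ha0.le ha1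
  refine ⟨?_, ?_, ?_⟩
  · rw [hv, G_val h0, Ek]
    push_cast
    ring
  · rw [hasDerivWithinAt_iff_isLittleO, Asymptotics.isLittleO_iff]
    intro c hc
    obtain ⟨δ, hδ, h⟩ := G_left h0 hc
    filter_upwards [self_mem_nhdsWithin, mem_nhdsWithin_of_mem_nhds
      (Ici_mem_nhds (show 1 / Pk (j0 + 1) - δ < 1 / Pk (j0 + 1) by linarith)),
      mem_nhdsWithin_of_mem_nhds (Ici_mem_nhds ha0)] with x h1 h2 h3
    have h4 := h x h2 h1
    have hx1 : x < 1 := lt_of_le_of_lt h1 ha1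
    have h5 := G_low (j0 + 1) h3 h1 hx1
    rw [fstar_eq h3 hx1, hv, G_val h0, Real.norm_eq_abs, Real.norm_eq_abs,
      abs_of_nonpos (sub_nonpos.2 (show x ≤ _ from h1)), abs_le, smul_eq_mul]
    push_cast at h5 ⊢
    have h6 := mul_nonneg hc.le (sub_nonneg.2 (show x ≤ _ from h1))
    constructor <;> linarith
  · rw [tendsto_atTop]
    intro M
    obtain ⟨δ, hδ, h⟩ := G_right h0 (M := max M 1) (by positivity)
    filter_upwards [self_mem_nhdsWithin, mem_nhdsWithin_of_mem_nhds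
      (Iic_mem_nhds (show 1 / Pk (j0 + 1) < 1 / Pk (j0 + 1) + δ by linarith)),
      mem_nhdsWithin_of_mem_nhds (Iio_mem_nhds ha1)] with x h1 h2 h3
    have h1' : 1 / Pk (j0 + 1) < x := h1
    have h4 := h x h1 h2 (le_of_lt h3)
    rw [slope_def_field, fstar_eq (ha0.le.trans h1'.le) h3, hv, le_div_iff₀ (sub_pos.2 h1')]
    have h5 := mul_le_mul_of_nonneg_right (le_max_left M 1) (sub_pos.2 h1').le
    linarith

end Pool.Agent.P.MP_e86632_nt.Cl
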