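import Pool.Agent.P.MP_e86632_nt.Cl.Cert

/-! Exact values: one vertex, one linear piece, and the value at one half. -/

namespace Pool.Agent.P.MP_e86632_nt.Cl

open Lex Finset Filter Topology

lemma pr5 : pr 5 = 13 := by rw [← np_pr, pr_four]; decide +kernel
lemma pr6 : pr 6 = 17 := by rw [← np_pr, pr5]; decide +kernel
lemma pr7 : pr 7 = 19 := by rw [← np_pr, pr6]; decide +kernel
lemma pr8 : pr 8 = 23 := by rw [← np_pr, pr7]; decide +kernel

lemma goI {k p : ℕ} {σ : St} (h : Ok k σ) (hp : pr k = p) : ∃ m, m = min (σ.u p) (σ.v p) ∧ 0 ≤ m ∧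
    m ≤ σ.u p ∧ m ≤ σ.v p ∧ Ok (k + 1) (σ.stepI p m) ∧
    ∀ w, Vw (.I w) k σ = (σ.WT + Vw w (k + 1) (σ.stepI p m)) / p := by
  subst hp
  exact ⟨_, rfl, h.mw0 le_rfl, min_le_left _ _, min_le_right _ _,
    bw2.okI k σ _ h (h.mw0 le_rfl) le_rfl, fun _ => rfl⟩

lemma goJ {k p : ℕ} {σ : St} (h : Ok k σ) (hp : pr k = p) : ∃ m, m = min (σ.u p) (σ.v p) ∧ 0 ≤ m ∧
    m ≤ σ.u p ∧ m ≤ σ.v p ∧ Ok (k + 1) (σ.stepJ p m) ∧
    ∀ w, Vw (.J w) k σ = (σ.WS + Vw w (k + 1) (σ.stepJ p m)) / p := by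
  subst hp
  exact ⟨_, rfl, h.mw0 le_rfl, min_le_left _ _, min_le_right _ _,
    bw2.okJ k σ _ h (h.mw0 le_rfl) le_rfl, fun _ => rfl⟩

theorem G_sixth : G (1 / 6) = 11 / 30 := by
  refine le_antisymm ?_ (down (w := .I (.J (.I .top))) (by norm_num) fun l hl => ?_)
  · have := G_le_chk (D := 30) (by norm_num) (x := 5) (y := 11) (x' := 5) (y' := 11)
      (.node (.node (.leaf 4 1) (.node (.node (.leaf 2 1) (.leaf 3 2)) (.leaf 1 1)))
        (.node (.node (.leaf 1 1) (.leaf 0 1)) (.leaf 0 1))) (by decide +kernel)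
      (z := 1 / 6) (c := 11 / 30) (s := 0) (by norm_num) (by norm_num) (by norm_num) (by norm_num)
      (by norm_num)
    linarith
  · obtain ⟨m0, -, z0, a0, b0, o0, e0⟩ := goI (ok_st0 hl zero_le_one) pr_zero
    obtain ⟨m1, -, z1, a1, b1, o1, e1⟩ := goJ o0 pr_one
    obtain ⟨m2, -, z2, a2, b2, o2, e2⟩ := goI o1 pr_two
    rw [e0, e1, e2]
    clear e0 e1 e2 o0 o1 o2
    norm_num [St.stepI, St.stepJ, st0, Nat.ModEq, Vw] at *
    linarith

theorem G_piece {x : ℝ} (h1 : 73 / 330 ≤ x) (h2 : x ≤ 47 / 210) :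
    G x = 4027 / 6930 - 4 / 3 * x := by
  refine le_antisymm ?_ (down (w := .I (.J (.J (.I (.I .top))))) (by linarith) fun l hl => ?_)
  · exact G_le_chk (D := 2310) (by norm_num) (x := 511) (y := 661) (x' := 517) (y' := 653)
      (.node (.node (.leaf 4 1) (.node (.node (.leaf 2 1) (.leaf 3 2)) (.node (.node (.node
        (.leaf 3 2) (.leaf 4 3)) (.node (.node (.leaf 4 3) (.leaf 1 1)) (.leaf 1 1))) (.leaf 1 1))))
        (.node (.node (.node (.leaf 1 1) (.leaf 0 1)) (.leaf 0 1)) (.leaf 0 1))) (by decide +kernel)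
      (by push_cast; linarith) (by push_cast; linarith) (by linarith) (by norm_num) (by norm_num)
  · suffices H : l * (73 / 330) + 661 / 2310 ≤ Vw (.I (.J (.J (.I (.I .top))))) 0 (st0 l 1) ∧
        l * (47 / 210) + 653 / 2310 ≤ Vw (.I (.J (.J (.I (.I .top))))) 0 (st0 l 1) by
      rcases le_total l (4 / 3) with h4 | h4
      · nlinarith [mul_nonneg (sub_nonneg.2 h4) (sub_nonneg.2 h1), H.1]
      · nlinarith [mul_nonneg (sub_nonneg.2 h4) (sub_nonneg.2 h2), H.2]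
    obtain ⟨m0, -, z0, a0, b0, o0, e0⟩ := goI (ok_st0 hl zero_le_one) pr_zero
    obtain ⟨m1, -, z1, a1, b1, o1, e1⟩ := goJ o0 pr_one
    obtain ⟨m2, -, z2, a2, b2, o2, e2⟩ := goJ o1 pr_two
    obtain ⟨m3, -, z3, a3, b3, o3, e3⟩ := goI o2 pr_three
    obtain ⟨m4, -, z4, a4, b4, o4, e4⟩ := goI o3 pr_four
    rw [e0, e1, e2, e3, e4]
    clear e0 e1 e2 e3 e4 o0 o1 o2 o3 o4 h1 h2
    norm_num [St.stepI, St.stepJ, st0, Nat.ModEq, Vw] at *
    constructor <;> linarith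

def cJ : ℕ → Tr → Tr
  | 0, t => t
  | n + 1, t => .node (.leaf 1 1) (cJ n t)

def cI : ℕ → Tr → Tr
  | 0, t => t
  | n + 1, t => .node (cI n t) (.leaf 0 1)

def tH : Tr := .node (.leaf 2 1) (.node (cJ 6 (.node (cJ 46 (.leaf 1 2)) (.leaf 1 2)))
  (cI 6 (.node (.leaf 1 2) (cI 46 (.leaf 1 2)))))

theorem chk_half : chk (12 * 223092870 * 10 ^ 101) (6 * 223092870 * 10 ^ 101)
    (223092870 * 10 ^ 101 + 12 * 10 ^ 101 + 12 * 223092870) (6 * 223092870 * 10 ^ 101)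
    (223092870 * 10 ^ 101 + 12 * 10 ^ 101 + 12 * 223092870) tH [] = true := by decide +kernel

theorem G_half_le : G (1 / 2) ≤ 1 / 12 + 1 / 223092870 + 1 / 10 ^ 101 := by
  have := G_le_chk (by norm_num) tH chk_half (z := 1 / 2)
    (c := 1 / 12 + 1 / 223092870 + 1 / 10 ^ 101) (s := 0) (by norm_num) (by norm_num)
    (by norm_num) (by norm_num) (by norm_num)
  linarith

lemma run_J (n : ℕ) (e : Wd) : ∀ k,
    (1 - sw (wd (fun _ => true) k n e) k) * Ek k = Ek (k + n) * (1 - sw e (k + n)) ∧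
    (0 < tw e (k + n) → 0 < tw (wd (fun _ => true) k n e) k) := by
  induction n with
  | zero => intro k; exact ⟨mul_comm _ _, id⟩
  | succ n ih =>
    intro k
    obtain ⟨h1, h2⟩ := ih (k + 1)
    rw [show k + 1 + n = k + (n + 1) by ring] at h1 h2
    simp only [wd, if_true, sw, tw]
    refine ⟨?_, fun h => div_pos (h2 h) (q_pos k)⟩
    rw [← h1, Ek_succ]
    ring

lemma exists_tail (k : ℕ) {δ : ℝ} (hδ : 0 < δ) : ∃ e, 1 - sw e k ≤ δ ∧ 0 < tw e k := by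
  obtain ⟨N, hN⟩ := eventually_atTop.1
    (Ek_tendsto.eventually (gt_mem_nhds (mul_pos hδ (Ek_pos k))))
  obtain ⟨h1, h2⟩ := run_J N (.I .top) k
  refine ⟨_, ?_, h2 ?_⟩
  · refine le_of_mul_le_mul_right ?_ (Ek_pos k)
    rw [h1]
    have h3 := hN (k + N) (by omega)
    have h4 := bw1.s0 (.I .top) (k + N)
    nlinarith [Ek_pos (k + N)]
  · simp only [tw, mul_zero, add_zero]
    exact one_div_pos.2 (q_pos _)

theorem G_half_gt : 1 / 12 + 1 / 223092870 < G (1 / 2) := by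
  obtain ⟨e, hs, ht⟩ := exists_tail 9 (δ := 1 / 4) (by norm_num)
  have hst := bw1.st e 9
  have hk : Lex.kap e 9 ≤ 1 := by
    have h1 := bw1.kap e 9 (by norm_num)
    have h2 := q_ge_eleven (k := 9) (by norm_num)
    nlinarith [bw1.k0 e 9]
  refine lt_of_lt_of_le (b := 1 / 12 + 1 / 223092870 + tw e 9 / 446185740) (by linarith)
    (down (w := .J (.I (.J (.J (.J (.J (.J (.J (.I e))))))))) (by norm_num) fun l hl => ?_)
  obtain ⟨m0, c0, z0, a0, b0, o0, e0⟩ := goJ (ok_st0 hl zero_le_one) pr_zero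
  obtain ⟨m1, c1, z1, a1, b1, o1, e1⟩ := goI o0 pr_one
  obtain ⟨m2, -, z2, a2, b2, o2, e2⟩ := goJ o1 pr_two
  obtain ⟨m3, -, z3, a3, b3, o3, e3⟩ := goJ o2 pr_three
  obtain ⟨m4, -, z4, a4, b4, o4, e4⟩ := goJ o3 pr_four
  obtain ⟨m5, -, z5, a5, b5, o5, e5⟩ := goJ o4 pr5
  obtain ⟨m6, -, z6, a6, b6, o6, e6⟩ := goJ o5 pr6
  obtain ⟨m7, -, z7, a7, b7, o7, e7⟩ := goJ o6 pr7
  obtain ⟨m8, -, z8, a8, b8, o8, e8⟩ := goI o7 pr8
  rw [e0, e1, e2, e3, e4, e5, e6, e7, e8]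
  have h1 := loS e _ _ o8
  have h2 := bw3.lo e _ _ (l - m1) o8 fun j hj => (min_le_left _ _).trans (by
    have := pr_odd (k := j) (by omega)
    simp only [St.stepI, St.stepJ, st0, Nat.ModEq, one_mul, this]
    split_ifs <;> first | linarith | contradiction)
  have h3 := o8.WS0
  generalize Vw e _ _ = X at h1 h2 ⊢
  clear e0 e1 e2 e3 e4 e5 e6 e7 e8 o0 o1 o2 o3 o4 o5 o6 o7 o8
  norm_num [St.stepI, St.stepJ, st0, Nat.ModEq] at c0 c1 a0 a1 a2 a3 a4 a5 a6 a7 a8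
  norm_num [St.stepI, St.stepJ, st0, Nat.ModEq] at b0 b1 b2 b3 b4 b5 b6 b7 b8 h1 h2 h3 ⊢
  have h4 := mul_le_mul_of_nonneg_left (show 3 / 4 ≤ sw e 9 by linarith) (sub_nonneg.2 h3)
  have h5 := mul_le_mul_of_nonneg_left hk (sub_nonneg.2 a1)
  rcases le_total l (1 / 2) with c2 | c2
  · rw [min_eq_left (by linarith)] at c0
    rw [min_eq_left (by linarith)] at c1
    have h6 := mul_le_mul_of_nonneg_right
      (show 1 ≤ 22 * (2 * (1 - m0) - m2 - m3 - m4 - m5 - m6 - m7) by linarith) ht.le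
    linarith
  have c3 : 1 - l ≤ m1 := c1 ▸ le_min (by linarith) (by linarith)
  rcases le_total l (1 / 2 + tw e 9 / 4) with c4 | c4
  · have h6 := mul_le_mul_of_nonneg_right
      (show 1 ≤ 22 * (2 * (1 - m0) - m2 - m3 - m4 - m5 - m6 - m7) by linarith) ht.le
    linarith
  · linarith

end Pool.Agent.P.MP_e86632_nt.Cl
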